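import Pool.Agent.VREV.Defs

open MeasureTheory Set Filter Topology
open scoped RealInnerProductSpace ENNReal Pointwise

noncomputable section

namespace Pool.Agent.VREV

/-- a small ball around `t ω` lies in the cone over the cap -/
theorem ball_subset_cone {p : ℕ} (ω₁ : Metric.sphere (0 : H (p + 1)) 1) {σ t : ℝ} (hσ : 0 < σ)
    (hσ1 : σ ≤ 1) (ht : 1 / 4 ≤ t) (ht2 : t ≤ 1 / 2) :
    Metric.ball (t • (ω₁ : H (p + 1))) (σ / 8) ⊆ Ioo (0 : ℝ) 1 •
      ((fun ω : Metric.sphere (0 : H (p + 1)) 1 => (ω : H (p + 1))) ''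
        {ω | ‖(ω : H (p + 1)) - ω₁‖ < σ}) := by
  intro y hy
  have hω : ‖(ω₁ : H (p + 1))‖ = 1 := by simpa using ω₁.2
  rw [Metric.mem_ball, dist_eq_norm] at hy
  have htω : ‖t • (ω₁ : H (p + 1))‖ = t := by
    rw [norm_smul, hω, mul_one, Real.norm_of_nonneg (by linarith)]
  have h1 : |‖y‖ - t| ≤ ‖y - t • (ω₁ : H (p + 1))‖ := by
    have := abs_norm_sub_norm_le y (t • (ω₁ : H (p + 1)))
    rwa [htω] at this
  have h2 := abs_le.1 (h1.trans hy.le)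
  have hy0 : 0 < ‖y‖ := by linarith
  have hy1 : ‖y‖ < 1 := by linarith
  have hyn : y ≠ 0 := norm_pos_iff.1 hy0
  have hu : ‖‖y‖⁻¹ • y‖ = 1 := by
    rw [norm_smul, norm_inv, norm_norm, inv_mul_cancel₀ hy0.ne']
  refine ⟨‖y‖, ⟨hy0, hy1⟩, ‖y‖⁻¹ • y, ⟨⟨‖y‖⁻¹ • y, by simpa using hu⟩, ?_, rfl⟩, ?_⟩
  · show ‖‖y‖⁻¹ • y - (ω₁ : H (p + 1))‖ < σ
    -- y/|y| - ω = ((y - tω) + (t - |y|) (y/|y|)) / t
    have ht0 : 0 < t := by linarith
    have e : ‖y‖⁻¹ • y - (ω₁ : H (p + 1)) =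
        t⁻¹ • ((y - t • (ω₁ : H (p + 1))) + (t - ‖y‖) • (‖y‖⁻¹ • y)) := by
      rw [sub_smul, smul_smul ‖y‖, mul_inv_cancel₀ hy0.ne', one_smul, smul_add, smul_sub,
        smul_sub, smul_smul, smul_smul t⁻¹ t, inv_mul_cancel₀ ht0.ne', one_smul, one_smul]
      abel
    rw [e, norm_smul, norm_inv, Real.norm_of_nonneg ht0.le]
    have h3 : ‖(y - t • (ω₁ : H (p + 1))) + (t - ‖y‖) • (‖y‖⁻¹ • y)‖ < σ / 4 := by
      calc _ ≤ ‖y - t • (ω₁ : H (p + 1))‖ + ‖(t - ‖y‖) • (‖y‖⁻¹ • y)‖ := norm_add_le _ _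
        _ < σ / 8 + σ / 8 := by
          rw [norm_smul, hu, mul_one, Real.norm_eq_abs, abs_sub_comm]
          exact add_lt_add_of_lt_of_le hy (h1.trans hy.le)
        _ = σ / 4 := by ring
    have h4 : t⁻¹ ≤ 4 := by
      rw [inv_le_comm₀ ht0 (by norm_num)]
      linarith
    calc _ ≤ 4 * ‖(y - t • (ω₁ : H (p + 1))) + (t - ‖y‖) • (‖y‖⁻¹ • y)‖ :=
          mul_le_mul_of_nonneg_right h4 (norm_nonneg _)
      _ < 4 * (σ / 4) := by linarith
      _ = σ := by ring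
  · show ‖y‖ • (‖y‖⁻¹ • y) = y
    rw [smul_smul, mul_inv_cancel₀ hy0.ne', one_smul]

/-- (A) lower bound for the measure of spherical caps. -/
theorem cap_lower (p : ℕ) : ∃ c : ℝ, 0 < c ∧ ∀ (ω₁ : Metric.sphere (0 : H (p + 1)) 1) (σ : ℝ),
    0 < σ → σ ≤ 1 → ENNReal.ofReal (c * σ ^ p) ≤ (volume : Measure (H (p + 1))).toSphere
      {ω | ‖(ω : H (p + 1)) - ω₁‖ < σ} := by
  set V : ℝ≥0∞ := volume (Metric.ball (0 : H (p + 1)) 1) with hV
  have hV0 : V ≠ 0 := (Metric.measure_ball_pos _ _ one_pos).ne'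
  have hVt : V ≠ ⊤ := measure_ball_lt_top.ne
  have hv : 0 < V.toReal := ENNReal.toReal_pos hV0 hVt
  refine ⟨V.toReal / (2 * 8 ^ (p + 1)), by positivity, fun ω₁ σ hσ hσ1 => ?_⟩
  have hmeas : MeasurableSet {ω : Metric.sphere (0 : H (p + 1)) 1 |
      ‖(ω : H (p + 1)) - ω₁‖ < σ} := by
    apply IsOpen.measurableSet
    exact isOpen_lt (by fun_prop) continuous_const
  rw [Measure.toSphere_apply' _ hmeas]
  have hω : ‖(ω₁ : H (p + 1))‖ = 1 := by simpa using ω₁.2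
  set N := ⌊1 / σ⌋₊ with hN
  have hN1 : (N : ℝ) ≤ 1 / σ := Nat.floor_le (by positivity)
  have hN2 : 1 / σ < N + 1 := Nat.lt_floor_add_one _
  have hN3 : 1 ≤ N := by
    rw [hN, Nat.one_le_floor_iff, le_div_iff₀ hσ]
    linarith
  have hN4 : (1 : ℝ) ≤ N := by exact_mod_cast hN3
  have hN5 : 1 / (2 * σ) ≤ N := by
    have : 1 / (2 * σ) = (1 / σ) / 2 := by field_simp
    rw [this]; linarith
  have hNσ : (N : ℝ) * σ ≤ 1 := by
    rwa [le_div_iff₀ hσ] at hN1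
  let B : ℕ → Set (H (p + 1)) := fun j =>
    Metric.ball ((1 / 4 + j * (σ / 4)) • (ω₁ : H (p + 1))) (σ / 8)
  have hsub : (⋃ j ∈ Finset.range N, B j) ⊆ Ioo (0 : ℝ) 1 •
      ((fun ω : Metric.sphere (0 : H (p + 1)) 1 => (ω : H (p + 1))) ''
        {ω | ‖(ω : H (p + 1)) - ω₁‖ < σ}) := by
    intro y hy
    obtain ⟨j, hj, hyj⟩ := Set.mem_iUnion₂.1 hy
    have hj' : (j : ℝ) + 1 ≤ N := by exact_mod_cast Finset.mem_range.1 hj
    have hj0 : (0 : ℝ) ≤ j := Nat.cast_nonneg j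
    refine ball_subset_cone ω₁ hσ hσ1 ?_ ?_ hyj
    · have : 0 ≤ (j : ℝ) * (σ / 4) := by positivity
      linarith
    · nlinarith
  have hdisj : Set.PairwiseDisjoint (↑(Finset.range N)) B := by
    intro i _ j _ hij
    refine Metric.ball_disjoint_ball ?_
    rw [dist_eq_norm, ← sub_smul, norm_smul, hω, mul_one]
    have e : (1 / 4 + (i : ℝ) * (σ / 4)) - (1 / 4 + (j : ℝ) * (σ / 4)) =
        ((i : ℝ) - j) * (σ / 4) := by ring
    rw [e, norm_mul, Real.norm_of_nonneg (by positivity : (0 : ℝ) ≤ σ / 4)]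
    have h1 : (1 : ℝ) ≤ ‖(i : ℝ) - j‖ := by
      rw [Real.norm_eq_abs]
      have h2 : (1 : ℤ) ≤ |(i : ℤ) - j| := Int.one_le_abs (by
        intro h
        apply hij
        omega)
      have h3 : ((1 : ℤ) : ℝ) ≤ ((|(i : ℤ) - j| : ℤ) : ℝ) := by exact_mod_cast h2
      simpa using h3
    nlinarith
  have hvol : volume (⋃ j ∈ Finset.range N, B j) =
      (N : ℝ≥0∞) * (ENNReal.ofReal ((σ / 8) ^ (p + 1)) * V) := by
    rw [measure_biUnion_finset hdisj (fun j _ => Metric.isOpen_ball.measurableSet)]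
    have : ∀ j ∈ Finset.range N, volume (B j) = ENNReal.ofReal ((σ / 8) ^ (p + 1)) * V := by
      intro j _
      rw [Measure.addHaar_ball _ _ (by positivity)]
      simp [hV]
    rw [Finset.sum_congr rfl this, Finset.sum_const, Finset.card_range, nsmul_eq_mul]
  have hdim : (1 : ℝ≥0∞) ≤ (Module.finrank ℝ (H (p + 1)) : ℝ≥0∞) := by
    have : Module.finrank ℝ (H (p + 1)) = p + 1 := by simp
    rw [this]
    exact_mod_cast Nat.succ_le_succ (Nat.zero_le p)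
  calc ENNReal.ofReal (V.toReal / (2 * 8 ^ (p + 1)) * σ ^ p)
      ≤ ENNReal.ofReal ((N : ℝ) * ((σ / 8) ^ (p + 1) * V.toReal)) := by
        apply ENNReal.ofReal_le_ofReal
        have h1 : (1 / (2 * σ)) * ((σ / 8) ^ (p + 1) * V.toReal) ≤
            (N : ℝ) * ((σ / 8) ^ (p + 1) * V.toReal) :=
          mul_le_mul_of_nonneg_right hN5 (by positivity)
        refine le_trans (le_of_eq ?_) h1
        rw [div_pow, pow_succ σ p]
        field_simp
    _ = (N : ℝ≥0∞) * (ENNReal.ofReal ((σ / 8) ^ (p + 1)) * V) := by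
        rw [ENNReal.ofReal_mul (by positivity), ENNReal.ofReal_natCast,
          ENNReal.ofReal_mul (by positivity), ENNReal.ofReal_toReal hVt]
    _ = volume (⋃ j ∈ Finset.range N, B j) := hvol.symm
    _ ≤ volume (Ioo (0 : ℝ) 1 •
      ((fun ω : Metric.sphere (0 : H (p + 1)) 1 => (ω : H (p + 1))) ''
        {ω | ‖(ω : H (p + 1)) - ω₁‖ < σ})) := measure_mono hsub
    _ ≤ (Module.finrank ℝ (H (p + 1)) : ℝ≥0∞) * volume (Ioo (0 : ℝ) 1 •
      ((fun ω : Metric.sphere (0 : H (p + 1)) 1 => (ω : H (p + 1))) ''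
        {ω | ‖(ω : H (p + 1)) - ω₁‖ < σ})) := by
        conv_lhs => rw [← one_mul (volume _)]
        gcongr

end Pool.Agent.VREV
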