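import Pool.Agent.VREV.Radial

/-!
The first variation formula for the field `φ(|z - z₁|²) (z - z₁)`.
-/

open MeasureTheory Set Filter Topology
open scoped RealInnerProductSpace ENNReal

noncomputable section

namespace Pool.Agent.VREV

variable {n : ℕ}

/-- square of the distance to `(x₁, y₁)` -/
def dq {p : ℕ} (V : ℕ → Piece n) (x₁ : H (p + 1)) (y₁ : H n) (q : ℕ × ℝ) (ω : H (p + 1)) : ℝ :=
  ‖(V q.1).rad q.2 • ω - x₁‖ ^ 2 + ‖(V q.1).ht q.2 - y₁‖ ^ 2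

/-- square of the tangential part of the vector from `(x₁, y₁)` -/
def gq {p : ℕ} (V : ℕ → Piece n) (x₁ : H (p + 1)) (y₁ : H n) (q : ℕ × ℝ) (ω : H (p + 1)) : ℝ :=
  ‖(V q.1).rad q.2 • ω - x₁‖ ^ 2 - ⟪(V q.1).rad q.2 • ω - x₁, ω⟫ ^ 2 +
    ((V q.1).cos q.2 * ⟪(V q.1).rad q.2 • ω - x₁, ω⟫ + ⟪(V q.1).ht q.2 - y₁, (V q.1).sin q.2⟫) ^ 2

lemma quad_smul_sub {p : ℕ} (F : H (p + 1) × H n → ℝ) (F' : H (p + 1) × H n →L[ℝ] ℝ)
    (x₁ : H (p + 1)) (y₁ : H n) (z : H (p + 1) × H n) (v : H (p + 1)) (w : H n)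
    (hF : HasFDerivAt F F' z) :
    quad (fun z => F z • (z - (x₁, y₁))) z v w =
      F z * (‖v‖ ^ 2 + ‖w‖ ^ 2) + F' (v, w) * (⟪z.1 - x₁, v⟫ + ⟪z.2 - y₁, w⟫) := by
  have hX : HasFDerivAt (fun z : H (p + 1) × H n => F z • (z - (x₁, y₁)))
      (F z • ContinuousLinearMap.id ℝ _ + F'.smulRight (z - (x₁, y₁))) z :=
    hF.smul ((hasFDerivAt_id _).sub_const _)
  rw [quad, hX.fderiv]
  simp only [add_apply, smul_apply,
    ContinuousLinearMap.id_apply, ContinuousLinearMap.smulRight_apply, Prod.fst_add, Prod.snd_add,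
    Prod.smul_fst, Prod.smul_snd, Prod.fst_sub, Prod.snd_sub, inner_add_left, inner_smul_left,
    real_inner_self_eq_norm_sq, conj_trivial]
  ring

lemma divT_smul_sub {p : ℕ} (F : H (p + 1) × H n → ℝ) (F' : H (p + 1) × H n →L[ℝ] ℝ)
    (x₁ : H (p + 1)) (y₁ : H n) (z : H (p + 1) × H n)
    (ω : H (p + 1)) (hω : ‖ω‖ = 1) (c : ℝ) (s : H n) (hF : HasFDerivAt F F' z) :
    divT (fun a => (EuclideanSpace.single a 1 : H (p + 1))) (fun z => F z • (z - (x₁, y₁))) z ω c s =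
      p * F z + F' (z.1 - x₁, 0) - F' (ω, 0) * ⟪z.1 - x₁, ω⟫ + F z * (c ^ 2 + ‖s‖ ^ 2) +
        F' (c • ω, s) * (c * ⟪z.1 - x₁, ω⟫ + ⟪z.2 - y₁, s⟫) := by
  have hsum : ∑ a, F' (EuclideanSpace.single a 1, 0) *
      ⟪z.1 - x₁, (EuclideanSpace.single a (1 : ℝ) : H (p + 1))⟫ = F' (z.1 - x₁, 0) := by
    have h1 : (z.1 - x₁, (0 : H n)) =
        ∑ a, (z.1 - x₁) a • ((EuclideanSpace.single a (1 : ℝ) : H (p + 1)), (0 : H n)) := by
      ext i
      · simp [Prod.fst_sum, Finset.sum_apply, Pi.single_apply]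
      · simp [Prod.snd_sum]
    rw [h1, map_sum]
    refine Finset.sum_congr rfl fun a _ => ?_
    rw [map_smul, smul_eq_mul, mul_comm, EuclideanSpace.inner_single_right]
    simp
  rw [divT, quad_smul_sub F F' _ _ _ _ _ hF, quad_smul_sub F F' _ _ _ _ _ hF]
  simp_rw [quad_smul_sub F F' _ _ _ _ _ hF]
  simp only [inner_zero_right, add_zero, Finset.sum_add_distrib, norm_zero, hsum]
  simp only [inner_smul_right, hω, norm_smul,
    PiLp.norm_single, Finset.sum_const, Finset.card_univ, Fintype.card_fin, nsmul_eq_mul,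
    Real.norm_eq_abs, mul_pow, sq_abs]
  push_cast
  norm_num
  ring

/-- (C) the first variation formula for the field `φ(|z - z₁|²) (z - z₁)`. -/
theorem stat_centre (p : ℕ) (V : ℕ → Piece n) {δ b : ℝ} (x₁ : H (p + 1)) (y₁ : H n)
    (hb : ∀ z : H (p + 1) × H n, ‖z.1 - x₁‖ ^ 2 + ‖z.2 - y₁‖ ^ 2 ≤ b → ‖z.1‖ ^ 2 + ‖z.2‖ ^ 2 < δ ^ 2)
    (hstat : StationaryIn p V δ) (φ h : ℝ → ℝ) (hc : Continuous h)
    (hφ : ∀ v, HasDerivAt φ (h v) v) (h0 : ∀ v, b ≤ v → φ v = 0) :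
    ∫ q, (∫ ω : Metric.sphere (0 : H (p + 1)) 1, ((p + 1) * φ (dq V x₁ y₁ q ω) +
      2 * (h (dq V x₁ y₁ q ω) * gq V x₁ y₁ q ω)) ∂(volume : Measure (H (p + 1))).toSphere)
        ∂(wt p V) = 0 := by
  have hφc : ContDiff ℝ 1 φ := by
    rw [contDiff_one_iff_deriv]
    refine ⟨fun v => (hφ v).differentiableAt, ?_⟩
    have : deriv φ = h := funext fun v => (hφ v).deriv
    rw [this]; exact hc
  have hQc : ContDiff ℝ 1 (fun z : H (p + 1) × H n => ‖z.1 - x₁‖ ^ 2 + ‖z.2 - y₁‖ ^ 2) :=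
    ((contDiff_fst.sub contDiff_const).norm_sq ℝ).add ((contDiff_snd.sub contDiff_const).norm_sq ℝ)
  let F : H (p + 1) × H n → ℝ := fun z => φ (‖z.1 - x₁‖ ^ 2 + ‖z.2 - y₁‖ ^ 2)
  have hFc : ContDiff ℝ 1 F := hφc.comp hQc
  have hXc : ContDiff ℝ 1 (fun z => F z • (z - (x₁, y₁))) := hFc.smul (contDiff_id.sub contDiff_const)
  have hclosed : IsClosed {z : H (p + 1) × H n | ‖z.1 - x₁‖ ^ 2 + ‖z.2 - y₁‖ ^ 2 ≤ b} :=
    isClosed_le hQc.continuous continuous_const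
  have hsupp : Function.support (fun z : H (p + 1) × H n => F z • (z - (x₁, y₁))) ⊆
      {z | ‖z.1 - x₁‖ ^ 2 + ‖z.2 - y₁‖ ^ 2 ≤ b} := by
    intro z hz
    by_contra hz'
    simp only [mem_ofPred_eq, not_le] at hz'
    exact hz (by simp [F, h0 _ hz'.le])
  have hbdd : {z : H (p + 1) × H n | ‖z.1 - x₁‖ ^ 2 + ‖z.2 - y₁‖ ^ 2 ≤ b} ⊆
      Metric.closedBall (x₁, y₁) (√b) := by
    intro z hz
    simp only [mem_ofPred_eq] at hz
    rw [Metric.mem_closedBall, Prod.dist_eq, max_le_iff, dist_eq_norm, dist_eq_norm]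
    constructor
    · exact Real.le_sqrt_of_sq_le (by nlinarith [_root_.sq_nonneg ‖z.2 - y₁‖])
    · exact Real.le_sqrt_of_sq_le (by nlinarith [_root_.sq_nonneg ‖z.1 - x₁‖])
  have hcomp : IsCompact {z : H (p + 1) × H n | ‖z.1 - x₁‖ ^ 2 + ‖z.2 - y₁‖ ^ 2 ≤ b} :=
    (isCompact_closedBall _ _).of_isClosed_subset hclosed hbdd
  have hcs : HasCompactSupport (fun z : H (p + 1) × H n => F z • (z - (x₁, y₁))) :=
    HasCompactSupport.of_support_subset_isCompact hcomp hsupp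
  have hts : tsupport (fun z : H (p + 1) × H n => F z • (z - (x₁, y₁))) ⊆
      {z | ‖z.1‖ ^ 2 + ‖z.2‖ ^ 2 < δ ^ 2} := by
    refine (closure_minimal hsupp hclosed).trans fun z hz => ?_
    simp only [mem_ofPred_eq] at hz ⊢
    exact hb z hz
  have key := hstat _ ⟨hXc, hcs, hts⟩
  rw [← key]
  refine integral_congr_ae ?_
  refine (ae_good p V).mono fun q hq => ?_
  obtain ⟨_, hr, hsp⟩ := hq
  have hunit := unit_of_ne _ _ hsp
  show _ = sphDiv (volume : Measure (H (p + 1))) (fun a => EuclideanSpace.single a 1)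
    (fun z => F z • (z - (x₁, y₁))) ((V q.1).rad q.2) ((V q.1).ht q.2) ((V q.1).cos q.2)
    ((V q.1).sin q.2)
  rw [sphDiv]
  refine integral_congr_ae (Eventually.of_forall fun ω => ?_)
  have hω : ‖(ω : H (p + 1))‖ = 1 := by simp
  simp only [dq, gq]
  set r := (V q.1).rad q.2 with hr'
  set y := (V q.1).ht q.2 with hy'
  set c := (V q.1).cos q.2 with hc'
  set s := (V q.1).sin q.2 with hs'
  have hQ' : HasFDerivAt (fun z : H (p + 1) × H n => ‖z.1 - x₁‖ ^ 2 + ‖z.2 - y₁‖ ^ 2)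
      ((2 • (innerSL ℝ (r • (ω : H (p + 1)) - x₁))).comp (ContinuousLinearMap.fst ℝ _ _) +
        (2 • (innerSL ℝ (y - y₁))).comp (ContinuousLinearMap.snd ℝ _ _))
        (r • (ω : H (p + 1)), y) := by
    refine HasFDerivAt.add ?_ ?_
    · exact HasFDerivAt.comp (g := fun x : H (p + 1) => ‖x‖ ^ 2)
        (f := fun z : H (p + 1) × H n => z.1 - x₁)
        (r • (ω : H (p + 1)), y) (hasStrictFDerivAt_norm_sq _).hasFDerivAt
        (hasFDerivAt_fst.sub_const _)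
    · exact HasFDerivAt.comp (g := fun x : H n => ‖x‖ ^ 2)
        (f := fun z : H (p + 1) × H n => z.2 - y₁)
        (r • (ω : H (p + 1)), y) (hasStrictFDerivAt_norm_sq _).hasFDerivAt
        (hasFDerivAt_snd.sub_const _)
  have hF' := (hφ (‖r • (ω : H (p + 1)) - x₁‖ ^ 2 + ‖y - y₁‖ ^ 2)).comp_hasFDerivAt
    (r • (ω : H (p + 1)), y) hQ'
  rw [divT_smul_sub F _ x₁ y₁ _ ω hω c s hF']
  simp only [F, add_apply, smul_apply, ContinuousLinearMap.comp_apply,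
    ContinuousLinearMap.coe_fst', ContinuousLinearMap.coe_snd', innerSL_apply_apply, smul_eq_mul,
    hunit, inner_smul_right, inner_zero_right,
    real_inner_self_eq_norm_sq, nsmul_eq_mul, Nat.cast_ofNat]
  ring

end Pool.Agent.VREV
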