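import Pool.Agent.VREV.Form
import Pool.Agent.VREW.Stat

open MeasureTheory Set Filter Topology
open scoped RealInnerProductSpace ENNReal

noncomputable section

namespace Pool.Agent.VREV

variable {n : ℕ}

/-- the weight of the rotated varifold on pairs (parameter, rotation) -/
def mu (p : ℕ) (V : ℕ → Piece n) (δ : ℝ) : Measure ((ℕ × ℝ) × Metric.sphere (0 : H (p + 1)) 1) :=
  ((wt p V).restrict {q | sq V q < δ ^ 2}).prod (volume : Measure (H (p + 1))).toSphere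

lemma cs_le_one (V : ℕ → Piece n) (q : ℕ × ℝ) : (V q.1).cos q.2 ^ 2 + ‖(V q.1).sin q.2‖ ^ 2 ≤ 1 := by
  by_cases h : (V q.1).speed q.2 = 0
  · simp [Piece.cos, Piece.sin, h]
  · exact (unit_of_ne _ _ h).le

lemma gq_nonneg {p : ℕ} (V : ℕ → Piece n) (x₁ : H (p + 1)) (y₁ : H n) (q : ℕ × ℝ)
    (ω : H (p + 1)) (hω : ‖ω‖ = 1) : 0 ≤ gq V x₁ y₁ q ω := by
  have h1 : ⟪(V q.1).rad q.2 • ω - x₁, ω⟫ ^ 2 ≤ ‖(V q.1).rad q.2 • ω - x₁‖ ^ 2 := by
    have := abs_real_inner_le_norm ((V q.1).rad q.2 • ω - x₁) ω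
    rw [hω, mul_one] at this
    rw [← sq_abs]
    exact pow_le_pow_left₀ (abs_nonneg _) this 2
  rw [gq]
  have := _root_.sq_nonneg ((V q.1).cos q.2 * ⟪(V q.1).rad q.2 • ω - x₁, ω⟫ +
    ⟪(V q.1).ht q.2 - y₁, (V q.1).sin q.2⟫)
  linarith

lemma cs_two {c A B S T : ℝ} (hcS : c ^ 2 + S ^ 2 ≤ 1) (hT : |T| ≤ B * S) :
    (c * A + T) ^ 2 ≤ A ^ 2 + B ^ 2 := by
  have h1 : T ^ 2 ≤ (B * S) ^ 2 := by
    rw [← sq_abs]; exact pow_le_pow_left₀ (abs_nonneg _) hT 2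
  have h2 : |c * A + T| ≤ |c| * |A| + |B| * |S| := by
    have h3 : B * S ≤ |B| * |S| := by rw [← abs_mul]; exact le_abs_self _
    calc |c * A + T| ≤ |c * A| + |T| := abs_add_le _ _
      _ ≤ |c| * |A| + |B| * |S| := by rw [abs_mul]; linarith
  have h3 : (c * A + T) ^ 2 ≤ (|c| * |A| + |B| * |S|) ^ 2 := by
    rw [← sq_abs]; exact pow_le_pow_left₀ (abs_nonneg _) h2 2
  have h4 : (|c| * |A| + |B| * |S|) ^ 2 ≤ (c ^ 2 + S ^ 2) * (A ^ 2 + B ^ 2) := by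
    rw [← sq_abs c, ← sq_abs S, ← sq_abs A, ← sq_abs B]
    nlinarith [_root_.sq_nonneg (|c| * |B| - |S| * |A|)]
  have h5 : (c ^ 2 + S ^ 2) * (A ^ 2 + B ^ 2) ≤ 1 * (A ^ 2 + B ^ 2) :=
    mul_le_mul_of_nonneg_right hcS (by positivity)
  linarith

lemma gq_le {p : ℕ} (V : ℕ → Piece n) (x₁ : H (p + 1)) (y₁ : H n) (q : ℕ × ℝ)
    (ω : H (p + 1)) : gq V x₁ y₁ q ω ≤ dq V x₁ y₁ q ω := by
  have h := cs_two (A := ⟪(V q.1).rad q.2 • ω - x₁, ω⟫) (cs_le_one V q)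
    (abs_real_inner_le_norm ((V q.1).ht q.2 - y₁) ((V q.1).sin q.2))
  rw [gq, dq]
  linarith

lemma dq_meas {p : ℕ} (V : ℕ → Piece n) (x₁ : H (p + 1)) (y₁ : H n) :
    Measurable fun z : (ℕ × ℝ) × Metric.sphere (0 : H (p + 1)) 1 => dq V x₁ y₁ z.1 z.2 := by
  have h1 : Measurable fun z : (ℕ × ℝ) × Metric.sphere (0 : H (p + 1)) 1 =>
      (V z.1.1).rad z.1.2 • (z.2 : H (p + 1)) :=
    ((meas_rad V).comp measurable_fst).smul (measurable_subtype_coe.comp measurable_snd)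
  exact ((h1.sub_const _).norm.pow_const 2).add
    ((((meas_ht V).comp measurable_fst).sub_const _).norm.pow_const 2)

lemma gq_meas {p : ℕ} (V : ℕ → Piece n) (x₁ : H (p + 1)) (y₁ : H n) :
    Measurable fun z : (ℕ × ℝ) × Metric.sphere (0 : H (p + 1)) 1 => gq V x₁ y₁ z.1 z.2 := by
  have h0 : Measurable fun z : (ℕ × ℝ) × Metric.sphere (0 : H (p + 1)) 1 => (z.2 : H (p + 1)) :=
    measurable_subtype_coe.comp measurable_snd
  have h1 : Measurable fun z : (ℕ × ℝ) × Metric.sphere (0 : H (p + 1)) 1 =>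
      (V z.1.1).rad z.1.2 • (z.2 : H (p + 1)) :=
    ((meas_rad V).comp measurable_fst).smul h0
  have h2 := (h1.sub_const x₁).inner (𝕜 := ℝ) h0
  have h4 : Measurable fun z : (ℕ × ℝ) × Metric.sphere (0 : H (p + 1)) 1 =>
      (V z.1.1).ht z.1.2 := (meas_ht V).comp measurable_fst
  have h5 : Measurable fun z : (ℕ × ℝ) × Metric.sphere (0 : H (p + 1)) 1 =>
      (V z.1.1).sin z.1.2 := (meas_sin V).comp measurable_fst
  have h3 := (h4.sub_const y₁).inner (𝕜 := ℝ) h5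
  exact ((((h1.sub_const _).norm.pow_const 2).sub (h2.pow_const 2))).add
    ((((meas_cos V).comp measurable_fst).mul h2).add h3 |>.pow_const 2)

/-- the sliced form of stationarity for balls with centre `(x₁, y₁)` -/
lemma hS_centre (p : ℕ) (V : ℕ → Piece n) {δ b : ℝ} (x₁ : H (p + 1)) (y₁ : H n)
    (hb : ∀ z : H (p + 1) × H n, ‖z.1 - x₁‖ ^ 2 + ‖z.2 - y₁‖ ^ 2 ≤ b → ‖z.1‖ ^ 2 + ‖z.2‖ ^ 2 < δ ^ 2)
    (hstat : StationaryIn p V δ) (hfin : wt p V {q | sq V q < δ ^ 2} ≠ ∞)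
    (h : ℝ → ℝ) (hc : Continuous h) (hsup : ∀ v, v ∉ Icc 0 b → h v = 0) :
    2 * ∫ z, h (dq V x₁ y₁ z.1 z.2) * gq V x₁ y₁ z.1 z.2 ∂(mu p V δ) =
      (2 * (((p : ℝ) + 1) / 2)) * ∫ z, (∫ v in Ioi (dq V x₁ y₁ z.1 z.2), h v) ∂(mu p V δ) := by
  have hcs : HasCompactSupport h := by
    refine HasCompactSupport.of_support_subset_isCompact (isCompact_Icc (a := (0:ℝ)) (b := b)) ?_
    intro v hv; by_contra hv'; exact hv (hsup v hv')
  have hint : Integrable h := hc.integrable_of_hasCompactSupport hcs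
  obtain ⟨C, hC⟩ := hcs.exists_bound_of_continuous hc
  have hI0 : ∀ x, b ≤ x → ∫ v in Ioi x, h v = 0 := by
    intro x hx
    refine setIntegral_eq_zero_of_forall_eq_zero fun v hv => hsup v fun hv' => ?_
    exact absurd hv'.2 (not_le.2 (hx.trans_lt hv))
  have hφI : ∀ x, ∫ v in b..x, h v = -∫ v in Ioi x, h v := by
    intro x
    have := intervalIntegral.integral_interval_add_Ioi (f := h) (μ := volume) (a := x) (b := b)
      hint.integrableOn hint.integrableOn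
    rw [hI0 b le_rfl, add_zero] at this
    rw [← this, intervalIntegral.integral_symm]
  have key := stat_centre p V x₁ y₁ hb hstat (fun x => ∫ v in b..x, h v) h hc
    (fun v => (hc.integral_hasStrictDerivAt b v).hasDerivAt)
    (fun v hv => by rw [hφI, hI0 v hv, neg_zero])
  simp only [hφI] at key
  have hsq : ∀ (q : ℕ × ℝ) (ω : Metric.sphere (0 : H (p + 1)) 1), ‖(V q.1).rad q.2 • (ω : H (p + 1))‖ ^ 2 +
      ‖(V q.1).ht q.2‖ ^ 2 = sq V q := by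
    intro q ω
    have hω : ‖(ω : H (p + 1))‖ = 1 := by simp
    rw [norm_smul, hω, mul_one, Real.norm_eq_abs, sq_abs]; rfl
  have hdb : ∀ (q : ℕ × ℝ) (ω : Metric.sphere (0 : H (p + 1)) 1), ¬ sq V q < δ ^ 2 →
      b < dq V x₁ y₁ q ω := by
    intro q ω hq
    by_contra hle
    push Not at hle
    exact hq (hsq q ω ▸ hb ((V q.1).rad q.2 • (ω : H (p + 1)), (V q.1).ht q.2) hle)
  have hms : MeasurableSet {q | sq V q < δ ^ 2} := measurableSet_lt (meas_sq V) measurable_const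
  rw [← setIntegral_eq_integral_of_forall_compl_eq_zero (s := {q | sq V q < δ ^ 2})] at key
  swap
  · intro q hq
    have hq' : ¬ sq V q < δ ^ 2 := hq
    have : ∀ ω : Metric.sphere (0 : H (p + 1)) 1, ((p : ℝ) + 1) *
        (-∫ v in Ioi (dq V x₁ y₁ q ω), h v) +
        2 * (h (dq V x₁ y₁ q ω) * gq V x₁ y₁ q ω) = 0 := by
      intro ω
      have h2 := hdb q ω hq'
      have h1 : h (dq V x₁ y₁ q ω) = 0 := hsup _ fun h' => absurd h'.2 (not_le.2 h2)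
      rw [hI0 _ h2.le, h1]; ring
    simp only [this, integral_zero]
  have hfm : IsFiniteMeasure ((wt p V).restrict {q | sq V q < δ ^ 2}) :=
    ⟨by rw [Measure.restrict_apply_univ]; exact hfin.lt_top⟩
  have hJc : Continuous fun x => ∫ v in Ioi x, h v := by
    have : (fun x => ∫ v in Ioi x, h v) = fun x => -∫ v in b..x, h v := by
      ext x; rw [hφI]; ring
    rw [this]
    exact (continuous_iff_continuousAt.2 fun v =>
      (hc.integral_hasStrictDerivAt b v).hasDerivAt.continuousAt).neg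
  have hJb : ∀ x, |∫ v in Ioi x, h v| ≤ ∫ v, |h v| := fun x =>
    (abs_integral_le_integral_abs).trans
      (setIntegral_le_integral hint.abs (Eventually.of_forall fun v => abs_nonneg _))
  have hC0 : 0 ≤ C := (norm_nonneg _).trans (hC 0)
  have hmuf : IsFiniteMeasure (mu p V δ) := by rw [mu]; infer_instance
  have hi1 : Integrable (fun z : (ℕ × ℝ) × Metric.sphere (0 : H (p + 1)) 1 =>
      (∫ v in Ioi (dq V x₁ y₁ z.1 z.2), h v)) (mu p V δ) := by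
    refine Integrable.of_bound (C := (∫ v, |h v|))
      (hJc.measurable.comp (dq_meas V x₁ y₁)).aestronglyMeasurable
      (Eventually.of_forall fun z => ?_)
    rw [Real.norm_eq_abs]; exact hJb _
  have hi2 : Integrable (fun z : (ℕ × ℝ) × Metric.sphere (0 : H (p + 1)) 1 =>
      h (dq V x₁ y₁ z.1 z.2) * gq V x₁ y₁ z.1 z.2) (mu p V δ) := by
    refine Integrable.of_bound (C := C * max b 0)
      ((hc.measurable.comp (dq_meas V x₁ y₁)).mul (gq_meas V x₁ y₁)).aestronglyMeasurable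
      (Eventually.of_forall fun z => ?_)
    have hω : ‖(z.2 : H (p + 1))‖ = 1 := by simp
    have hg0 := gq_nonneg V x₁ y₁ z.1 (z.2 : H (p + 1)) hω
    rw [norm_mul, Real.norm_of_nonneg hg0]
    by_cases hz : dq V x₁ y₁ z.1 z.2 ≤ b
    · exact mul_le_mul (hC _) ((gq_le V x₁ y₁ z.1 z.2).trans (hz.trans (le_max_left _ _))) hg0 hC0
    · have h1 : h (dq V x₁ y₁ z.1 z.2) = 0 := hsup _ fun h' => hz h'.2
      rw [h1, norm_zero, zero_mul]
      exact mul_nonneg hC0 (le_max_right _ _)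
  have hi1' : Integrable (fun z : (ℕ × ℝ) × Metric.sphere (0 : H (p + 1)) 1 =>
      ((p : ℝ) + 1) * (-∫ v in Ioi (dq V x₁ y₁ z.1 z.2), h v)) (mu p V δ) := hi1.neg.const_mul _
  have hi3 : Integrable (fun z : (ℕ × ℝ) × Metric.sphere (0 : H (p + 1)) 1 =>
      ((p : ℝ) + 1) * (-∫ v in Ioi (dq V x₁ y₁ z.1 z.2), h v) +
        2 * (h (dq V x₁ y₁ z.1 z.2) * gq V x₁ y₁ z.1 z.2))
      (((wt p V).restrict {q | sq V q < δ ^ 2}).prod (volume : Measure (H (p + 1))).toSphere) :=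
    hi1'.add (hi2.const_mul _)
  rw [← integral_prod _ hi3] at key
  have key2 : ∫ z, (((p : ℝ) + 1) * (-∫ v in Ioi (dq V x₁ y₁ z.1 z.2), h v) +
      2 * (h (dq V x₁ y₁ z.1 z.2) * gq V x₁ y₁ z.1 z.2)) ∂(mu p V δ) = 0 := key
  rw [integral_add hi1' (hi2.const_mul _), integral_const_mul,
    integral_const_mul, integral_neg] at key2
  linarith

/-- the monotonicity of the mass ratio for balls with centre `(x₁, y₁)` -/
lemma mono_centre (p : ℕ) (V : ℕ → Piece n) {δ b : ℝ} (x₁ : H (p + 1)) (y₁ : H n)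
    (hb : ∀ z : H (p + 1) × H n, ‖z.1 - x₁‖ ^ 2 + ‖z.2 - y₁‖ ^ 2 ≤ b → ‖z.1‖ ^ 2 + ‖z.2‖ ^ 2 < δ ^ 2)
    (hstat : StationaryIn p V δ) (hfin : wt p V {q | sq V q < δ ^ 2} ≠ ∞) {a : ℝ} (ha : 0 < a)
    (hab : a ≤ b) :
    mu p V δ {z | dq V x₁ y₁ z.1 z.2 < a} * ENNReal.ofReal (a ^ (-(((p : ℝ) + 1) / 2))) ≤
      mu p V δ {z | dq V x₁ y₁ z.1 z.2 < b} * ENNReal.ofReal (b ^ (-(((p : ℝ) + 1) / 2))) := by
  set β : ℝ := ((p : ℝ) + 1) / 2 with hβ
  have hβ0 : 0 < β := by positivity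
  have hfm : IsFiniteMeasure ((wt p V).restrict {q | sq V q < δ ^ 2}) :=
    ⟨by rw [Measure.restrict_apply_univ]; exact hfin.lt_top⟩
  have hmuf : IsFiniteMeasure (mu p V δ) := by rw [mu]; infer_instance
  -- restrict to the ball, where `gq` is bounded
  have hω : ∀ z : (ℕ × ℝ) × Metric.sphere (0 : H (p + 1)) 1, ‖(z.2 : H (p + 1))‖ = 1 :=
    fun z => by simp
  have hgi : Integrable (fun z : (ℕ × ℝ) × Metric.sphere (0 : H (p + 1)) 1 =>
      gq V x₁ y₁ z.1 z.2) (mu p V δ) := by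
    have hbd : ∀ᵐ z ∂(mu p V δ), sq V z.1 < δ ^ 2 := by
      rw [mu]
      exact Measure.quasiMeasurePreserving_fst.ae
        (ae_restrict_mem (measurableSet_lt (meas_sq V) measurable_const))
    refine Integrable.of_bound (C := 2 * (|δ| + ‖x₁‖ + ‖y₁‖) ^ 2)
      (gq_meas V x₁ y₁).aestronglyMeasurable ?_
    filter_upwards [hbd] with z hz
    rw [Real.norm_of_nonneg (gq_nonneg V x₁ y₁ z.1 _ (hω z))]
    refine (gq_le V x₁ y₁ z.1 z.2).trans ?_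
    have hr : ‖(V z.1.1).rad z.1.2 • (z.2 : H (p + 1))‖ ≤ |δ| := by
      refine abs_le_of_sq_le_sq' ?_ (abs_nonneg _) |>.2
      rw [sq_abs, norm_smul, hω z, mul_one, Real.norm_eq_abs, sq_abs]
      have : sq V z.1 = (V z.1.1).rad z.1.2 ^ 2 + ‖(V z.1.1).ht z.1.2‖ ^ 2 := rfl
      nlinarith [_root_.sq_nonneg ‖(V z.1.1).ht z.1.2‖]
    have hy : ‖(V z.1.1).ht z.1.2‖ ≤ |δ| := by
      refine abs_le_of_sq_le_sq' ?_ (abs_nonneg _) |>.2
      rw [sq_abs]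
      have : sq V z.1 = (V z.1.1).rad z.1.2 ^ 2 + ‖(V z.1.1).ht z.1.2‖ ^ 2 := rfl
      nlinarith [_root_.sq_nonneg ((V z.1.1).rad z.1.2)]
    have h1 : ‖(V z.1.1).rad z.1.2 • (z.2 : H (p + 1)) - x₁‖ ≤ |δ| + ‖x₁‖ + ‖y₁‖ := by
      have := norm_sub_le ((V z.1.1).rad z.1.2 • (z.2 : H (p + 1))) x₁
      have := norm_nonneg y₁
      linarith
    have h2 : ‖(V z.1.1).ht z.1.2 - y₁‖ ≤ |δ| + ‖x₁‖ + ‖y₁‖ := by
      have := norm_sub_le ((V z.1.1).ht z.1.2) y₁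
      have := norm_nonneg x₁
      linarith
    rw [dq]
    have h3 := pow_le_pow_left₀ (norm_nonneg _) h1 2
    have h4 := pow_le_pow_left₀ (norm_nonneg _) h2 2
    linarith
  have key := mono_formula (mu p V δ) (fun z => dq V x₁ y₁ z.1 z.2) (fun z => gq V x₁ y₁ z.1 z.2)
    (dq_meas V x₁ y₁) (gq_meas V x₁ y₁) (fun z => gq_nonneg V x₁ y₁ z.1 _ (hω z)) hgi hβ0 (b₁ := b)
    (hS_centre p V x₁ y₁ hb hstat hfin) ha hab le_rfl
  have hset : MeasurableSet {z : (ℕ × ℝ) × Metric.sphere (0 : H (p + 1)) 1 |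
      a ≤ dq V x₁ y₁ z.1 z.2 ∧ dq V x₁ y₁ z.1 z.2 < b} :=
    (measurableSet_le measurable_const (dq_meas V x₁ y₁)).inter
      (measurableSet_lt (dq_meas V x₁ y₁) measurable_const)
  have hle : ∫⁻ z in {z : (ℕ × ℝ) × Metric.sphere (0 : H (p + 1)) 1 |
      a ≤ dq V x₁ y₁ z.1 z.2 ∧ dq V x₁ y₁ z.1 z.2 < b},
      ENNReal.ofReal (dq V x₁ y₁ z.1 z.2 ^ (-β - 1) * gq V x₁ y₁ z.1 z.2) ∂(mu p V δ) ≤
      ∫⁻ z in {z : (ℕ × ℝ) × Metric.sphere (0 : H (p + 1)) 1 |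
      a ≤ dq V x₁ y₁ z.1 z.2 ∧ dq V x₁ y₁ z.1 z.2 < b},
      ENNReal.ofReal (dq V x₁ y₁ z.1 z.2 ^ (-β)) ∂(mu p V δ) := by
    refine setLIntegral_mono' hset fun z hz => ENNReal.ofReal_le_ofReal ?_
    have hU : 0 < dq V x₁ y₁ z.1 z.2 := ha.trans_le hz.1
    calc dq V x₁ y₁ z.1 z.2 ^ (-β - 1) * gq V x₁ y₁ z.1 z.2 ≤
        dq V x₁ y₁ z.1 z.2 ^ (-β - 1) * dq V x₁ y₁ z.1 z.2 :=
          mul_le_mul_of_nonneg_left (gq_le V x₁ y₁ z.1 z.2) (Real.rpow_nonneg hU.le _)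
      _ = _ := by rw [← Real.rpow_add_one hU.ne']; congr 1; ring
  have hfinI : ∫⁻ z in {z : (ℕ × ℝ) × Metric.sphere (0 : H (p + 1)) 1 |
      a ≤ dq V x₁ y₁ z.1 z.2 ∧ dq V x₁ y₁ z.1 z.2 < b},
      ENNReal.ofReal (dq V x₁ y₁ z.1 z.2 ^ (-β)) ∂(mu p V δ) ≠ ∞ := by
    refine ne_top_of_le_ne_top (b := ENNReal.ofReal (a ^ (-β)) *
      mu p V δ {z : (ℕ × ℝ) × Metric.sphere (0 : H (p + 1)) 1 |
      a ≤ dq V x₁ y₁ z.1 z.2 ∧ dq V x₁ y₁ z.1 z.2 < b}) (ENNReal.mul_ne_top ENNReal.ofReal_ne_top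
        (measure_ne_top _ _)) ?_
    rw [← setLIntegral_const]
    exact setLIntegral_mono' hset fun z hz => ENNReal.ofReal_le_ofReal
      (Real.rpow_le_rpow_of_nonpos ha hz.1 (by linarith))
  refine (ENNReal.add_le_add_iff_right hfinI).1 ?_
  rw [key]
  exact add_le_add le_rfl hle

end Pool.Agent.VREV
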