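import Pool.Agent.VREV.Main
import Pool.Agent.VREW.Centre
import Pool.Agent.VREW.Cap
import Pool.Agent.VREV.DensLow

open MeasureTheory Set Filter Topology
open scoped RealInnerProductSpace ENNReal

noncomputable section

namespace Pool.Agent.VREV

variable {n : ℕ}

/-- square of the distance to the point with parameter `q₁` in the half plane -/
def pd (V : ℕ → Piece n) (q₁ q : ℕ × ℝ) : ℝ :=
  ((V q.1).rad q.2 - (V q₁.1).rad q₁.2) ^ 2 + ‖(V q.1).ht q.2 - (V q₁.1).ht q₁.2‖ ^ 2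

lemma pd_meas (V : ℕ → Piece n) (q₁ : ℕ × ℝ) : Measurable (pd V q₁) :=
  (((meas_rad V).sub_const _).pow_const 2).add (((meas_ht V).sub_const _).norm.pow_const 2)

/-- a point of the closed ball about a point of norm less than `δ - R` -/
lemma in_ball {p : ℕ} (x₁ : H (p + 1)) (y₁ : H n) {δ R : ℝ} (hR : 0 ≤ R)
    (h1 : √(‖x₁‖ ^ 2 + ‖y₁‖ ^ 2) + R < δ) (z : H (p + 1) × H n)
    (hz : ‖z.1 - x₁‖ ^ 2 + ‖z.2 - y₁‖ ^ 2 ≤ R ^ 2) : ‖z.1‖ ^ 2 + ‖z.2‖ ^ 2 < δ ^ 2 := by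
  set N := √(‖x₁‖ ^ 2 + ‖y₁‖ ^ 2) with hN
  have hN0 : 0 ≤ N := Real.sqrt_nonneg _
  have hN2 : N ^ 2 = ‖x₁‖ ^ 2 + ‖y₁‖ ^ 2 := Real.sq_sqrt (by positivity)
  have h2 : ‖z.1‖ ≤ ‖x₁‖ + ‖z.1 - x₁‖ := by
    calc ‖z.1‖ = ‖x₁ + (z.1 - x₁)‖ := by congr 1; abel
      _ ≤ _ := norm_add_le _ _
  have h3 : ‖z.2‖ ≤ ‖y₁‖ + ‖z.2 - y₁‖ := by
    calc ‖z.2‖ = ‖y₁ + (z.2 - y₁)‖ := by congr 1; abel
      _ ≤ _ := norm_add_le _ _
  have h4 : ‖x₁‖ * ‖z.1 - x₁‖ + ‖y₁‖ * ‖z.2 - y₁‖ ≤ N * R := by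
    refine abs_le_of_sq_le_sq' ?_ (by positivity) |>.2
    calc (‖x₁‖ * ‖z.1 - x₁‖ + ‖y₁‖ * ‖z.2 - y₁‖) ^ 2 ≤
        (‖x₁‖ ^ 2 + ‖y₁‖ ^ 2) * (‖z.1 - x₁‖ ^ 2 + ‖z.2 - y₁‖ ^ 2) := by
          nlinarith [_root_.sq_nonneg (‖x₁‖ * ‖z.2 - y₁‖ - ‖y₁‖ * ‖z.1 - x₁‖)]
      _ ≤ N ^ 2 * R ^ 2 := by
          rw [hN2]; exact mul_le_mul_of_nonneg_left hz (by positivity)
      _ = (N * R) ^ 2 := by ring
  have h5 := pow_le_pow_left₀ (norm_nonneg _) h2 2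
  have h6 := pow_le_pow_left₀ (norm_nonneg _) h3 2
  have h7 : ‖z.1‖ ^ 2 + ‖z.2‖ ^ 2 ≤ (N + R) ^ 2 := by nlinarith
  have h8 : (N + R) ^ 2 < δ ^ 2 := by
    refine pow_lt_pow_left₀ h1 (by positivity) two_ne_zero
  linarith

/-- lower bound for the mass ratio at small scales -/
lemma small_scale (p : ℕ) : ∃ c : ℝ, 0 < c ∧ ∀ (n : ℕ) (V : ℕ → Piece n) (δ : ℝ),
    ∀ᵐ q₁ ∂(wt p V), ∀ R, 0 < R → √(sq V q₁) + R < δ → ∃ s, 0 < s ∧ s ≤ R ∧
      ∀ ω₁ : Metric.sphere (0 : H (p + 1)) 1, ENNReal.ofReal c ≤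
        mu p V δ {z | dq V ((V q₁.1).rad q₁.2 • (ω₁ : H (p + 1))) ((V q₁.1).ht q₁.2) z.1 z.2 < s ^ 2} *
          ENNReal.ofReal ((s ^ 2) ^ (-(((p : ℝ) + 1) / 2))) := by
  obtain ⟨c, hc, hcap⟩ := cap_lower p
  refine ⟨c / (8 * 2 ^ p), by positivity, fun n V δ => ?_⟩
  filter_upwards [dens_lower p V, ae_good p V] with q₁ hd hg R hR hRδ
  obtain ⟨s₀, hs0, hd⟩ := hd
  obtain ⟨-, hr, -⟩ := hg
  set r := (V q₁.1).rad q₁.2 with hrdef
  set y := (V q₁.1).ht q₁.2 with hydef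
  set s := min (min R s₀) r with hs
  have hspos : 0 < s := lt_min (lt_min hR hs0) hr
  have hsR : s ≤ R := (min_le_left _ _).trans (min_le_left _ _)
  have hss0 : s ≤ s₀ := (min_le_left _ _).trans (min_le_right _ _)
  have hsr : s ≤ r := min_le_right _ _
  refine ⟨s, hspos, hsR, fun ω₁ => ?_⟩
  have hω₁ : ‖(ω₁ : H (p + 1))‖ = 1 := by simp
  have h1 := hd (s / 2) (by positivity) (by linarith)
  have h2 := hcap ω₁ (s / (2 * r)) (by positivity) (by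
    rw [div_le_one (by positivity)]; linarith)
  set A : Set (ℕ × ℝ) := {q' | ((V q'.1).rad q'.2 - r) ^ 2 + ‖(V q'.1).ht q'.2 - y‖ ^ 2 < (s / 2) ^ 2}
    with hA
  set B : Set (Metric.sphere (0 : H (p + 1)) 1) := {ω | ‖(ω : H (p + 1)) - ω₁‖ < s / (2 * r)} with hB
  have hAm : MeasurableSet A := measurableSet_lt (pd_meas V q₁) measurable_const
  have hnorm : ‖r • (ω₁ : H (p + 1))‖ ^ 2 + ‖y‖ ^ 2 = sq V q₁ := by
    rw [norm_smul, hω₁, mul_one, Real.norm_eq_abs, sq_abs]; rfl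
  -- the product is contained in the ball
  have hsub : A ×ˢ B ⊆ {z : (ℕ × ℝ) × Metric.sphere (0 : H (p + 1)) 1 |
      dq V (r • (ω₁ : H (p + 1))) y z.1 z.2 < s ^ 2} := by
    rintro ⟨q, ω⟩ ⟨hq, hω⟩
    simp only [hA, hB, mem_ofPred_eq] at hq hω ⊢
    rw [dq]
    have hω' : ‖(ω : H (p + 1))‖ = 1 := by simp
    have e1 : (V q.1).rad q.2 • (ω : H (p + 1)) - r • (ω₁ : H (p + 1)) =
        ((V q.1).rad q.2 - r) • (ω : H (p + 1)) + r • ((ω : H (p + 1)) - ω₁) := by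
      rw [sub_smul, smul_sub]; abel
    have e2 : ‖(V q.1).rad q.2 • (ω : H (p + 1)) - r • (ω₁ : H (p + 1))‖ ≤
        |(V q.1).rad q.2 - r| + r * ‖(ω : H (p + 1)) - ω₁‖ := by
      rw [e1]
      refine (norm_add_le _ _).trans (le_of_eq ?_)
      rw [norm_smul, norm_smul, hω', mul_one, Real.norm_eq_abs, Real.norm_of_nonneg hr.le]
    have e3 : r * ‖(ω : H (p + 1)) - ω₁‖ < s / 2 := by
      have := mul_lt_mul_of_pos_left hω hr
      have h' : r * (s / (2 * r)) = s / 2 := by field_simp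
      rwa [h'] at this
    set a := |(V q.1).rad q.2 - r| with ha
    set b := ‖(V q.1).ht q.2 - y‖ with hb
    set C := r * ‖(ω : H (p + 1)) - ω₁‖ with hC
    have hC0 : 0 ≤ C := mul_nonneg hr.le (norm_nonneg _)
    have ha0 : 0 ≤ a := abs_nonneg _
    have hq' : a ^ 2 + b ^ 2 < (s / 2) ^ 2 := by rw [ha, sq_abs]; exact hq
    have e4 : a < s / 2 := by
      refine abs_lt_of_sq_lt_sq' ?_ (by positivity) |>.2
      nlinarith [_root_.sq_nonneg b]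
    have e5 := pow_le_pow_left₀ (norm_nonneg _) e2 2
    nlinarith
  -- restriction to the ball
  have hAδ : A ⊆ {q | sq V q < δ ^ 2} := by
    intro q hq
    have h3 : (q, ω₁) ∈ A ×ˢ B := ⟨hq, by
      simp only [hB, mem_ofPred_eq, sub_self, norm_zero]; positivity⟩
    have h4 := hsub h3
    simp only [mem_ofPred_eq] at h4
    have h5 := in_ball (r • (ω₁ : H (p + 1))) y hR.le (by rw [hnorm]; exact hRδ)
      ((V q.1).rad q.2 • (ω₁ : H (p + 1)), (V q.1).ht q.2)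
      (h4.le.trans (pow_le_pow_left₀ hspos.le hsR 2))
    have h6 : ‖(V q.1).rad q.2 • (ω₁ : H (p + 1))‖ ^ 2 + ‖(V q.1).ht q.2‖ ^ 2 = sq V q := by
      rw [norm_smul, hω₁, mul_one, Real.norm_eq_abs, sq_abs]; rfl
    simp only [mem_ofPred_eq]
    rw [← h6]; exact h5
  have h3 : wt p V A * (volume : Measure (H (p + 1))).toSphere B ≤
      mu p V δ {z | dq V (r • (ω₁ : H (p + 1))) y z.1 z.2 < s ^ 2} := by
    refine le_trans (le_of_eq ?_) (measure_mono hsub)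
    rw [mu, Measure.prod_prod, Measure.restrict_apply hAm, inter_eq_left.2 hAδ]
  have h4 : ENNReal.ofReal (s / 2 * r ^ p / 4) * ENNReal.ofReal (c * (s / (2 * r)) ^ p) ≤
      mu p V δ {z | dq V (r • (ω₁ : H (p + 1))) y z.1 z.2 < s ^ 2} :=
    (mul_le_mul' h1 h2).trans h3
  refine le_trans (le_of_eq ?_) (mul_le_mul' h4 le_rfl)
  rw [rpow_half p (by positivity), Real.sqrt_sq hspos.le, ← ENNReal.ofReal_mul (by positivity),
    ← ENNReal.ofReal_mul (by positivity)]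
  congr 1
  rw [div_pow, mul_pow, pow_succ s p]
  field_simp
  norm_num

/-- lower bound for the mass of balls -/
lemma ball_lower (p : ℕ) : ∃ c : ℝ, 0 < c ∧ ∀ (n : ℕ) (V : ℕ → Piece n) (δ : ℝ),
    StationaryIn p V δ → wt p V {q | sq V q < δ ^ 2} ≠ ∞ →
    ∀ᵐ q₁ ∂(wt p V), ∀ R, 0 < R → √(sq V q₁) + R < δ →
      ENNReal.ofReal (c * R ^ (p + 1)) ≤ wt p V {q | pd V q₁ q < R ^ 2} := by
  obtain ⟨c, hc, hsm⟩ := small_scale p
  set S := ((volume : Measure (H (p + 1))).toSphere).real univ with hS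
  have hS0 : 0 < S := by
    have h1 : (volume : Measure (H (p + 1))).toSphere univ ≠ 0 := by
      rw [Measure.toSphere_apply_univ]
      simp only [ne_eq, mul_eq_zero, Nat.cast_eq_zero, not_or]
      exact ⟨by simp, (Metric.measure_ball_pos _ _ one_pos).ne'⟩
    rw [hS, Measure.real]
    exact ENNReal.toReal_pos h1 (measure_ne_top _ _)
  have hSe : ((volume : Measure (H (p + 1))).toSphere) univ = ENNReal.ofReal S := by
    rw [hS, Measure.real, ENNReal.ofReal_toReal (measure_ne_top _ _)]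
  refine ⟨c / S, by positivity, fun n V δ hstat hfin => ?_⟩
  filter_upwards [hsm n V δ, ae_good p V] with q₁ h1 hg R hR hRδ
  obtain ⟨-, hr, -⟩ := hg
  obtain ⟨s, hs0, hsR, h2⟩ := h1 R hR hRδ
  obtain ⟨ω₁⟩ : Nonempty (Metric.sphere (0 : H (p + 1)) 1) := by
    have : Nontrivial (H (p + 1)) := inferInstance
    exact (NormedSpace.sphere_nonempty.2 zero_le_one).to_subtype
  have h3 := h2 ω₁
  set r := (V q₁.1).rad q₁.2 with hrdef
  set y := (V q₁.1).ht q₁.2 with hydef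
  have hω₁ : ‖(ω₁ : H (p + 1))‖ = 1 := by simp
  have hnorm : ‖r • (ω₁ : H (p + 1))‖ ^ 2 + ‖y‖ ^ 2 = sq V q₁ := by
    rw [norm_smul, hω₁, mul_one, Real.norm_eq_abs, sq_abs]; rfl
  have h4 := mono_centre p V (b := R ^ 2) (r • (ω₁ : H (p + 1))) y
    (in_ball _ _ hR.le (by rw [hnorm]; exact hRδ)) hstat hfin (a := s ^ 2) (by positivity)
    (pow_le_pow_left₀ hs0.le hsR 2)
  have h5 := h3.trans h4
  rw [rpow_half p (by positivity), Real.sqrt_sq hR.le] at h5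
  have hsub : {z : (ℕ × ℝ) × Metric.sphere (0 : H (p + 1)) 1 |
      dq V (r • (ω₁ : H (p + 1))) y z.1 z.2 < R ^ 2} ≤ᵐ[mu p V δ]
        ({q | pd V q₁ q < R ^ 2} ×ˢ univ : Set ((ℕ × ℝ) × Metric.sphere (0 : H (p + 1)) 1)) := by
    have hpos : ∀ᵐ z ∂(mu p V δ), 0 < (V z.1.1).rad z.1.2 := by
      rw [mu]
      exact Measure.quasiMeasurePreserving_fst.ae
        (ae_restrict_of_ae ((ae_good p V).mono fun q hq => hq.2.1))
    filter_upwards [hpos] with z hz hq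
    refine ⟨?_, mem_univ _⟩
    have hq' : dq V (r • (ω₁ : H (p + 1))) y z.1 z.2 < R ^ 2 := hq
    simp only [mem_ofPred_eq]
    refine lt_of_le_of_lt ?_ hq'
    rw [pd, dq]
    have hω' : ‖(z.2 : H (p + 1))‖ = 1 := by simp
    have e1 := abs_norm_sub_norm_le ((V z.1.1).rad z.1.2 • (z.2 : H (p + 1)))
      (r • (ω₁ : H (p + 1)))
    rw [norm_smul, norm_smul, hω', hω₁, mul_one, mul_one, Real.norm_of_nonneg hz.le,
      Real.norm_of_nonneg hr.le] at e1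
    have e2 := pow_le_pow_left₀ (abs_nonneg _) e1 2
    rw [sq_abs] at e2
    exact add_le_add e2 le_rfl
  have h6 : mu p V δ {z | dq V (r • (ω₁ : H (p + 1))) y z.1 z.2 < R ^ 2} ≤
      wt p V {q | pd V q₁ q < R ^ 2} * ENNReal.ofReal S := by
    refine (measure_mono_ae hsub).trans ?_
    rw [mu, Measure.prod_prod, hSe]
    exact mul_le_mul' (Measure.restrict_apply_le _ _) le_rfl
  have h7 : ENNReal.ofReal c ≤ wt p V {q | pd V q₁ q < R ^ 2} * ENNReal.ofReal S *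
      ENNReal.ofReal ((R ^ (p + 1))⁻¹) := h5.trans (mul_le_mul' h6 le_rfl)
  calc ENNReal.ofReal (c / S * R ^ (p + 1)) =
      ENNReal.ofReal c * ENNReal.ofReal (R ^ (p + 1) / S) := by
        rw [← ENNReal.ofReal_mul hc.le]; congr 1; ring
    _ ≤ wt p V {q | pd V q₁ q < R ^ 2} * ENNReal.ofReal S * ENNReal.ofReal ((R ^ (p + 1))⁻¹) *
        ENNReal.ofReal (R ^ (p + 1) / S) := mul_le_mul' h7 le_rfl
    _ = wt p V {q | pd V q₁ q < R ^ 2} * ENNReal.ofReal 1 := by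
        rw [mul_assoc, mul_assoc, ← ENNReal.ofReal_mul (by positivity),
          ← ENNReal.ofReal_mul hS0.le]
        congr 2
        field_simp
    _ = _ := by rw [ENNReal.ofReal_one, mul_one]

/-- if the contact integral over the ball of radius `ρ` is small, the points at distances
between `ρ / √8` and `ρ / 2` lie in the cone `‖y‖ ≤ ‖x‖` -/
lemma no_outside (p : ℕ) : ∃ ε : ℝ, 0 < ε ∧ ∀ (n : ℕ) (V : ℕ → Piece n) (δ : ℝ),
    StationaryIn p V δ → wt p V {q | sq V q < δ ^ 2} ≠ ∞ → ∀ ρ, 0 < ρ → ρ ≤ δ →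
    Ct p V (ρ ^ 2) ≤ ENNReal.ofReal (ε * ρ ^ (p + 3)) →
    ∀ᵐ q ∂(wt p V), ρ ^ 2 / 8 ≤ sq V q ∧ sq V q < ρ ^ 2 / 4 →
      ‖(V q.1).ht q.2‖ ≤ 1 * (V q.1).rad q.2 := by
  obtain ⟨c, hc, hbl⟩ := ball_lower p
  refine ⟨c / (2 * 8 ^ (p + 3)), by positivity, fun n V δ hstat hfin ρ hρ hρδ hC => ?_⟩
  filter_upwards [hbl n V δ hstat hfin, ae_good p V] with q₁ h1 hg hq
  obtain ⟨-, hr, -⟩ := hg
  by_contra hcon
  push Not at hcon
  rw [one_mul] at hcon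
  set r := (V q₁.1).rad q₁.2 with hrdef
  set y := (V q₁.1).ht q₁.2 with hydef
  have hsq : sq V q₁ = r ^ 2 + ‖y‖ ^ 2 := rfl
  have hy0 : 0 < ‖y‖ := hr.trans hcon
  have hyρ : ρ / 4 ≤ ‖y‖ := by
    refine abs_le_of_sq_le_sq' ?_ hy0.le |>.2
    have : r ^ 2 < ‖y‖ ^ 2 := pow_lt_pow_left₀ hcon hr.le two_ne_zero
    have h2 := hq.1
    rw [hsq] at h2
    nlinarith
  have hsqrt : √(sq V q₁) < ρ / 2 := by
    rw [Real.sqrt_lt' (by positivity)]
    have := hq.2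
    nlinarith
  have hyle : ‖y‖ ≤ √(sq V q₁) := by
    refine Real.le_sqrt_of_sq_le ?_
    rw [hsq]; nlinarith [_root_.sq_nonneg r]
  have h2 := h1 (‖y‖ / 2) (by positivity) (by linarith)
  -- the ball about the point
  have h3 : ENNReal.ofReal ((‖y‖ / 2) ^ 2) * wt p V {q | pd V q₁ q < (‖y‖ / 2) ^ 2} ≤
      Ct p V (ρ ^ 2) := by
    have hm : MeasurableSet {q | pd V q₁ q < (‖y‖ / 2) ^ 2} :=
      measurableSet_lt (pd_meas V q₁) measurable_const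
    have hsub : {q | pd V q₁ q < (‖y‖ / 2) ^ 2} ⊆ {q | sq V q < ρ ^ 2} := by
      intro q hq'
      simp only [mem_ofPred_eq, pd] at hq' ⊢
      rw [← hrdef, ← hydef] at hq'
      set a := (V q.1).rad q.2 - r with ha
      set d := ‖(V q.1).ht q.2 - y‖ with hd
      have e1 : |(V q.1).rad q.2| ≤ r + |a| := by
        have : (V q.1).rad q.2 = r + a := by rw [ha]; ring
        rw [this]
        exact (abs_add_le _ _).trans (by rw [abs_of_pos hr])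
      have e2 : ‖(V q.1).ht q.2‖ ≤ ‖y‖ + d := by
        calc ‖(V q.1).ht q.2‖ = ‖y + ((V q.1).ht q.2 - y)‖ := by congr 1; abel
          _ ≤ _ := norm_add_le _ _
      have e3 := pow_le_pow_left₀ (abs_nonneg _) e1 2
      have e4 := pow_le_pow_left₀ (norm_nonneg _) e2 2
      rw [sq_abs] at e3
      have e5 : sq V q = (V q.1).rad q.2 ^ 2 + ‖(V q.1).ht q.2‖ ^ 2 := rfl
      have e6 : |a| ^ 2 = a ^ 2 := sq_abs a
      -- (r + |a|)² + (Y + d)² ≤ 2 (r² + Y²) + 2 (a² + d²)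
      have e7 : sq V q ≤ 2 * sq V q₁ + 2 * (a ^ 2 + d ^ 2) := by
        rw [e5, hsq]
        nlinarith [_root_.sq_nonneg (r - |a|), _root_.sq_nonneg (‖y‖ - d)]
      have e8 : ‖y‖ ^ 2 ≤ sq V q₁ := by rw [hsq]; nlinarith [_root_.sq_nonneg r]
      have := hq.2
      nlinarith
    rw [Ct, ← setLIntegral_const]
    calc ∫⁻ _ in {q | pd V q₁ q < (‖y‖ / 2) ^ 2}, ENNReal.ofReal ((‖y‖ / 2) ^ 2) ∂(wt p V) ≤
        ∫⁻ q in {q | pd V q₁ q < (‖y‖ / 2) ^ 2}, ENNReal.ofReal (‖(V q.1).ht q.2‖ ^ 2)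
          ∂(wt p V) := by
          refine setLIntegral_mono' hm fun q hq' => ENNReal.ofReal_le_ofReal ?_
          simp only [mem_ofPred_eq, pd] at hq'
          rw [← hrdef, ← hydef] at hq'
          have e1 : ‖(V q.1).ht q.2 - y‖ < ‖y‖ / 2 := by
            refine abs_lt_of_sq_lt_sq' ?_ (by positivity) |>.2
            nlinarith [_root_.sq_nonneg ((V q.1).rad q.2 - r)]
          have e2 : ‖y‖ / 2 ≤ ‖(V q.1).ht q.2‖ := by
            have := norm_sub_norm_le y ((V q.1).ht q.2)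
            rw [norm_sub_rev] at this
            linarith
          exact pow_le_pow_left₀ (by positivity) e2 2
      _ ≤ _ := lintegral_mono_set hsub
  have h4 : ENNReal.ofReal ((‖y‖ / 2) ^ 2) * ENNReal.ofReal (c * (‖y‖ / 2) ^ (p + 1)) ≤
      ENNReal.ofReal (c / (2 * 8 ^ (p + 3)) * ρ ^ (p + 3)) :=
    ((mul_le_mul' le_rfl h2).trans h3).trans hC
  rw [← ENNReal.ofReal_mul (by positivity), ENNReal.ofReal_le_ofReal_iff (by positivity)] at h4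
  have h5 : (ρ / 8) ^ (p + 3) ≤ (‖y‖ / 2) ^ (p + 3) :=
    pow_le_pow_left₀ (by positivity) (by linarith) _
  have h6 : (‖y‖ / 2) ^ 2 * (c * (‖y‖ / 2) ^ (p + 1)) = c * (‖y‖ / 2) ^ (p + 3) := by ring
  have h7 : c / (2 * 8 ^ (p + 3)) * ρ ^ (p + 3) = c * (ρ / 8) ^ (p + 3) / 2 := by
    rw [div_pow]; field_simp
  rw [h6, h7] at h4
  have h8 : 0 < (ρ / 8) ^ (p + 3) := by positivity
  have h9 := mul_le_mul_of_nonneg_left h5 hc.le
  have h10 : 0 < c * (ρ / 8) ^ (p + 3) := by positivity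
  linarith

end Pool.Agent.VREV
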