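import Pool.Agent.VREV.Main

open MeasureTheory Set Filter Topology
open scoped RealInnerProductSpace ENNReal

noncomputable section

namespace Pool.Agent.VREV

variable {n : ℕ}

/-- upper bound for the mean number of sheets -/
lemma cnt_upper_ann (p : ℕ) (V : ℕ → Piece n) {δ b L a : ℝ} (hb : b < δ ^ 2)
    (hstat : StationaryIn p V δ) (hfin : wt p V {q | sq V q < δ ^ 2} ≠ ∞)
    (hcone : ∀ᵐ q ∂(wt p V), a ≤ sq V q ∧ sq V q < 2 * a →
      ‖(V q.1).ht q.2‖ ≤ L * (V q.1).rad q.2)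
    (ha : 0 < a) (hab : 2 * a ≤ b) :
    ∫⁻ v in Ico a (2 * a), cnt V v ≤
      (∫⁻ v in Ico a (2 * a), ENNReal.ofReal (v ^ (-(((p : ℝ) + 1) / 2))) *
        (ENNReal.ofReal ((p : ℝ) + 1) * wt p V {q | sq V q < v})) +
      ENNReal.ofReal (2 * (1 + |L|) ^ p) * (ENNReal.ofReal (2 * a) *
        (∫⁻ q in {q | a ≤ sq V q ∧ sq V q < 2 * a},
          ENNReal.ofReal (sq V q ^ (-(((p : ℝ) + 1) / 2) - 1) * (sq V q - kap V q ^ 2)) ∂(wt p V)) +
        ENNReal.ofReal (p * a ^ (-(((p : ℝ) + 1) / 2))) *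
        ∫⁻ q in {q | sq V q < 2 * a}, ENNReal.ofReal (‖(V q.1).ht q.2‖ ^ 2) ∂(wt p V)) := by
  set β : ℝ := ((p : ℝ) + 1) / 2 with hβ
  have hβ0 : 0 < β := by positivity
  have hmF : Measurable fun v : ℝ => ENNReal.ofReal (v ^ (-β)) :=
    ENNReal.measurable_ofReal.comp (measurable_id.pow_const _)
  have hset : MeasurableSet {q | a ≤ sq V q ∧ sq V q < 2 * a} :=
    (measurableSet_le measurable_const (meas_sq V)).inter
      (measurableSet_lt (meas_sq V) measurable_const)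
  have h3 := area V ((Ico a (2 * a)).indicator 1) (measurable_one.indicator measurableSet_Ico)
  have h4 : ∫⁻ v in Ico a (2 * a), cnt V v =
      ∫⁻ v, (Ico a (2 * a)).indicator (1 : ℝ → ℝ≥0∞) v * cnt V v := by
    rw [← lintegral_indicator measurableSet_Ico]
    refine lintegral_congr fun v => ?_
    by_cases hv : v ∈ Ico a (2 * a)
    · rw [indicator_of_mem hv, indicator_of_mem hv]; simp
    · rw [indicator_of_notMem hv, indicator_of_notMem hv]; simp
  -- the three terms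
  have hm1 : Measurable fun q => ENNReal.ofReal (sq V q ^ (-β)) * ENNReal.ofReal (2 * kap V q ^ 2) :=
    (hmF.comp (meas_sq V)).mul (ENNReal.measurable_ofReal.comp
      (((meas_kap V).pow_const 2).const_mul 2))
  have hm2 : Measurable fun q => ENNReal.ofReal (2 * (1 + |L|) ^ p) * (ENNReal.ofReal (2 * a) *
      ENNReal.ofReal (sq V q ^ (-β - 1) * (sq V q - kap V q ^ 2))) := by
    refine Measurable.const_mul (Measurable.const_mul (ENNReal.measurable_ofReal.comp ?_) _) _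
    exact ((meas_sq V).pow_const _).mul ((meas_sq V).sub ((meas_kap V).pow_const 2))
  have hm3 : Measurable fun q : ℕ × ℝ => ENNReal.ofReal (2 * (1 + |L|) ^ p) *
      (ENNReal.ofReal (p * a ^ (-β)) * ENNReal.ofReal (‖(V q.1).ht q.2‖ ^ 2)) := by
    refine Measurable.const_mul (Measurable.const_mul (ENNReal.measurable_ofReal.comp ?_) _) _
    exact (meas_ht V).norm.pow_const 2
  let G0 : ℕ × ℝ → ℝ≥0∞ := fun q =>
        ENNReal.ofReal (sq V q ^ (-β)) * ENNReal.ofReal (2 * kap V q ^ 2) +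
        (ENNReal.ofReal (2 * (1 + |L|) ^ p) * (ENNReal.ofReal (2 * a) *
          ENNReal.ofReal (sq V q ^ (-β - 1) * (sq V q - kap V q ^ 2))) +
        ENNReal.ofReal (2 * (1 + |L|) ^ p) *
          (ENNReal.ofReal (p * a ^ (-β)) * ENNReal.ofReal (‖(V q.1).ht q.2‖ ^ 2)))
  have hG0 : Measurable G0 := hm1.add (hm2.add hm3)
  have hbig : ∫⁻ q in {q : ℕ × ℝ | q.2 ∈ (V q.1).dom},
      ENNReal.ofReal |2 * (V q.1).speed q.2 * kap V q| *
        (Ico a (2 * a)).indicator (1 : ℝ → ℝ≥0∞) (sq V q)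
          ∂((Measure.count : Measure ℕ).prod volume) ≤
      ∫⁻ q, {q | a ≤ sq V q ∧ sq V q < 2 * a}.indicator G0 q ∂(wt p V) := by
    rw [lin_wt p V _ (hG0.indicator hset)]
    have hae : ∀ᵐ q ∂(((Measure.count : Measure ℕ).prod volume).restrict
        {q : ℕ × ℝ | q.2 ∈ (V q.1).dom}), ENNReal.ofReal ((V q.1).rad q.2 ^ p *
          (V q.1).speed q.2) ≠ 0 → (a ≤ sq V q ∧ sq V q < 2 * a →
            ‖(V q.1).ht q.2‖ ≤ L * (V q.1).rad q.2) := by
      rw [← ae_withDensity_iff (meas_dens p V)]; exact hcone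
    refine lintegral_mono_ae ?_
    filter_upwards [hae, ae_restrict_mem (meas_dom V)] with q hq hqd
    have hr := (V q.1).pos _ hqd
    by_cases hs : (V q.1).speed q.2 = 0
    · rw [hs]; simp
    by_cases hm : sq V q ∈ Ico a (2 * a)
    · have hU : 0 < sq V q := ha.trans_le hm.1
      have hs0 : 0 < (V q.1).speed q.2 := lt_of_le_of_ne (Real.sqrt_nonneg _) (Ne.symm hs)
      have hd0 : ENNReal.ofReal ((V q.1).rad q.2 ^ p * (V q.1).speed q.2) ≠ 0 := by
        rw [ENNReal.ofReal_ne_zero_iff]; positivity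
      have hL := hq hd0 hm
      have hI := ineq_two p V q hr hL
      rw [indicator_of_mem hm, indicator_of_mem (show q ∈ {q | a ≤ sq V q ∧ sq V q < 2 * a} from hm),
        Pi.one_apply, mul_one]
      set D := (V q.1).rad q.2 ^ p * (V q.1).speed q.2 with hD
      have hD0 : 0 ≤ D := by positivity
      have e0 : 0 ≤ sq V q - kap V q ^ 2 := sub_nonneg.2 (kap_sq_le V q)
      have e1 : sq V q ^ (-β) * (sq V q - kap V q ^ 2) ≤
          2 * a * (sq V q ^ (-β - 1) * (sq V q - kap V q ^ 2)) := by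
        have : sq V q ^ (-β) = sq V q * sq V q ^ (-β - 1) := by
          rw [mul_comm, ← Real.rpow_add_one hU.ne']; congr 1; ring
        rw [this, mul_assoc]
        exact mul_le_mul_of_nonneg_right hm.2.le (mul_nonneg (Real.rpow_nonneg hU.le _) e0)
      have e2 : sq V q ^ (-β) ≤ a ^ (-β) := Real.rpow_le_rpow_of_nonpos ha hm.1 (by linarith)
      have hfinal : |2 * (V q.1).speed q.2 * kap V q| ≤
          (sq V q ^ (-β) * (2 * kap V q ^ 2) + (2 * (1 + |L|) ^ p * (2 * a *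
            (sq V q ^ (-β - 1) * (sq V q - kap V q ^ 2))) + 2 * (1 + |L|) ^ p *
            (p * a ^ (-β) * ‖(V q.1).ht q.2‖ ^ 2))) * D := by
        refine hI.trans (mul_le_mul_of_nonneg_right ?_ hD0)
        have e3 : (p : ℝ) * (sq V q ^ (-β) * ‖(V q.1).ht q.2‖ ^ 2) ≤
            p * a ^ (-β) * ‖(V q.1).ht q.2‖ ^ 2 := by
          rw [mul_assoc]
          exact mul_le_mul_of_nonneg_left (mul_le_mul_of_nonneg_right e2 (_root_.sq_nonneg _))
            (Nat.cast_nonneg _)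
        have e4 : 0 ≤ 2 * (1 + |L|) ^ p := by positivity
        have e5 := mul_le_mul_of_nonneg_left (add_le_add e1 e3) e4
        linarith
      refine (ENNReal.ofReal_le_ofReal hfinal).trans (le_of_eq ?_)
      simp only [G0]
      rw [mul_comm (ENNReal.ofReal D)]
      have f1 : 0 ≤ sq V q ^ (-β) := Real.rpow_nonneg hU.le _
      have f2 : 0 ≤ sq V q ^ (-β - 1) * (sq V q - kap V q ^ 2) :=
        mul_nonneg (Real.rpow_nonneg hU.le _) e0
      have f3 : 0 ≤ (p : ℝ) * a ^ (-β) := mul_nonneg (Nat.cast_nonneg _) (Real.rpow_nonneg ha.le _)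
      rw [ENNReal.ofReal_mul' hD0, ENNReal.ofReal_add (by positivity) (by positivity),
        ENNReal.ofReal_add (by positivity) (by positivity), ENNReal.ofReal_mul f1,
        ENNReal.ofReal_mul (p := 2 * (1 + |L|) ^ p) (by positivity),
        ENNReal.ofReal_mul (p := 2 * (1 + |L|) ^ p) (by positivity),
        ENNReal.ofReal_mul (p := 2 * a) (by positivity), ENNReal.ofReal_mul f3]
    · rw [indicator_of_notMem hm, mul_zero]; exact zero_le
  rw [h4, ← h3]
  refine hbig.trans ?_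
  rw [lintegral_indicator hset]
  have hsum : ∫⁻ q in {q | a ≤ sq V q ∧ sq V q < 2 * a}, G0 q ∂(wt p V) =
      (∫⁻ q in {q | a ≤ sq V q ∧ sq V q < 2 * a},
        ENNReal.ofReal (sq V q ^ (-β)) * ENNReal.ofReal (2 * kap V q ^ 2) ∂(wt p V)) +
      ((∫⁻ q in {q | a ≤ sq V q ∧ sq V q < 2 * a}, ENNReal.ofReal (2 * (1 + |L|) ^ p) *
        (ENNReal.ofReal (2 * a) *
          ENNReal.ofReal (sq V q ^ (-β - 1) * (sq V q - kap V q ^ 2))) ∂(wt p V)) +
      ∫⁻ q in {q | a ≤ sq V q ∧ sq V q < 2 * a}, ENNReal.ofReal (2 * (1 + |L|) ^ p) *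
          (ENNReal.ofReal (p * a ^ (-β)) * ENNReal.ofReal (‖(V q.1).ht q.2‖ ^ 2)) ∂(wt p V)) := by
    rw [← lintegral_add_left hm2, ← lintegral_add_left hm1]
  rw [hsum, mul_add]
  refine add_le_add (le_of_eq ?_) (add_le_add (le_of_eq ?_) ?_)
  · have h5 := slice_wt p V hb hstat hfin
      ((Ico a (2 * a)).indicator fun v : ℝ => ENNReal.ofReal (v ^ (-β)))
      (hmF.indicator measurableSet_Ico)
    have h6 : ∫⁻ q in {q | sq V q ∈ Ioo 0 b},
        ((Ico a (2 * a)).indicator fun v : ℝ => ENNReal.ofReal (v ^ (-β))) (sq V q) *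
          ENNReal.ofReal (2 * kap V q ^ 2) ∂(wt p V) =
        ∫⁻ q in {q | a ≤ sq V q ∧ sq V q < 2 * a},
          ENNReal.ofReal (sq V q ^ (-β)) * ENNReal.ofReal (2 * kap V q ^ 2) ∂(wt p V) := by
      have hset' : MeasurableSet {q | sq V q ∈ Ioo 0 b} := meas_sq V measurableSet_Ioo
      rw [← lintegral_indicator hset', ← lintegral_indicator hset]
      refine lintegral_congr fun q => ?_
      by_cases hq : sq V q ∈ Ico a (2 * a)
      · rw [indicator_of_mem (show q ∈ {q | sq V q ∈ Ioo 0 b} from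
          ⟨ha.trans_le hq.1, hq.2.trans_le hab⟩), indicator_of_mem hq,
          indicator_of_mem (show q ∈ {q | a ≤ sq V q ∧ sq V q < 2 * a} from hq)]
      · rw [indicator_of_notMem (show q ∉ {q | a ≤ sq V q ∧ sq V q < 2 * a} from hq)]
        by_cases hq' : q ∈ {q | sq V q ∈ Ioo 0 b}
        · rw [indicator_of_mem hq', indicator_of_notMem hq, zero_mul]
        · rw [indicator_of_notMem hq']
    have h7 : ∫⁻ v in Ioo 0 b, ((Ico a (2 * a)).indicator fun v : ℝ => ENNReal.ofReal (v ^ (-β))) v *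
        (ENNReal.ofReal ((p : ℝ) + 1) * wt p V {q | sq V q < v}) =
        ∫⁻ v in Ico a (2 * a), ENNReal.ofReal (v ^ (-β)) *
          (ENNReal.ofReal ((p : ℝ) + 1) * wt p V {q | sq V q < v}) := by
      rw [← lintegral_indicator measurableSet_Ioo, ← lintegral_indicator measurableSet_Ico]
      refine lintegral_congr fun v => ?_
      by_cases hv : v ∈ Ico a (2 * a)
      · rw [indicator_of_mem (show v ∈ Ioo 0 b from ⟨ha.trans_le hv.1, hv.2.trans_le hab⟩),
          indicator_of_mem hv, indicator_of_mem hv]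
      · rw [indicator_of_notMem hv (f := fun v => ENNReal.ofReal (v ^ (-β)) *
          (ENNReal.ofReal ((p : ℝ) + 1) * wt p V {q | sq V q < v}))]
        by_cases hv' : v ∈ Ioo 0 b
        · rw [indicator_of_mem hv', indicator_of_notMem hv, zero_mul]
        · rw [indicator_of_notMem hv']
    rw [← h6, h5, h7]
  · rw [lintegral_const_mul' _ _ ENNReal.ofReal_ne_top, lintegral_const_mul' _ _ ENNReal.ofReal_ne_top]
  · rw [lintegral_const_mul' _ _ ENNReal.ofReal_ne_top, lintegral_const_mul' _ _ ENNReal.ofReal_ne_top]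
    gcongr
    exact fun hq => hq.2

lemma good_radius_ann (p : ℕ) (V : ℕ → Piece n) {δ b L a ε : ℝ} (hb : b < δ ^ 2)
    (hstat : StationaryIn p V δ) (hfin : wt p V {q | sq V q < δ ^ 2} ≠ ∞)
    (hcone : ∀ᵐ q ∂(wt p V), a ≤ sq V q ∧ sq V q < 2 * a →
      ‖(V q.1).ht q.2‖ ≤ L * (V q.1).rad q.2)
    (ha : 0 < a) (hab : 2 * a ≤ b)
    (hsmall : ENNReal.ofReal (2 * (1 + |L|) ^ p) * (ENNReal.ofReal (2 * a) * Ex p V a (2 * a) +
      ENNReal.ofReal (p * a ^ (-(((p : ℝ) + 1) / 2))) * Ct p V (2 * a)) <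
        ENNReal.ofReal ε * ENNReal.ofReal a) :
    ∃ v, a ≤ v ∧ v < 2 * a ∧ Th p V v ≤ cnt V v ∧ cnt V v < Th p V v + ENNReal.ofReal ε := by
  by_contra hcon
  push Not at hcon
  have h1 := theta_le_cnt p V hb hstat hfin
  have h2 : ∀ᵐ v ∂(volume.restrict (Ico a (2 * a))),
      Th p V v + ENNReal.ofReal ε ≤ cnt V v := by
    have h3 : ∀ᵐ v ∂(volume.restrict (Ico a (2 * a))), Th p V v ≤ cnt V v :=
      ae_mono (Measure.restrict_mono (show Ico a (2 * a) ⊆ Ioo 0 b from
        fun v hv => ⟨ha.trans_le hv.1, hv.2.trans_le hab⟩) le_rfl) h1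
    filter_upwards [h3, ae_restrict_mem measurableSet_Ico] with v hv hv'
    exact hcon v hv'.1 hv'.2 hv
  have h4 : ∫⁻ v in Ico a (2 * a), (Th p V v + ENNReal.ofReal ε) ≤
      ∫⁻ v in Ico a (2 * a), cnt V v := lintegral_mono_ae h2
  have h5 := cnt_upper_ann p V hb hstat hfin hcone ha hab
  rw [lintegral_add_left (Th_meas p V), setLIntegral_const, Real.volume_Ico] at h4
  have h6 : ∫⁻ v in Ico a (2 * a), Th p V v ≠ ∞ := by
    refine ne_top_of_le_ne_top (b := ENNReal.ofReal (a ^ (-(((p : ℝ) + 1) / 2))) *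
      (ENNReal.ofReal ((p : ℝ) + 1) * wt p V {q | sq V q < δ ^ 2}) *
      volume (Ico a (2 * a))) ?_ ?_
    · rw [Real.volume_Ico]
      exact ENNReal.mul_ne_top (ENNReal.mul_ne_top ENNReal.ofReal_ne_top
        (ENNReal.mul_ne_top ENNReal.ofReal_ne_top hfin)) ENNReal.ofReal_ne_top
    · rw [← setLIntegral_const]
      refine setLIntegral_mono' measurableSet_Ico fun v hv => ?_
      refine mul_le_mul' (ENNReal.ofReal_le_ofReal
        (Real.rpow_le_rpow_of_nonpos ha hv.1 (by have : (0:ℝ) ≤ p := Nat.cast_nonneg p; linarith)))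
        (mul_le_mul' le_rfl (measure_mono fun q hq => ?_))
      exact lt_trans (lt_of_lt_of_le hq (hv.2.le.trans hab)) hb
  have h7 := h4.trans h5
  have h8 : ENNReal.ofReal ε * ENNReal.ofReal (2 * a - a) ≤ ENNReal.ofReal (2 * (1 + |L|) ^ p) *
      (ENNReal.ofReal (2 * a) * Ex p V a (2 * a) +
      ENNReal.ofReal (p * a ^ (-(((p : ℝ) + 1) / 2))) * Ct p V (2 * a)) :=
    (ENNReal.add_le_add_iff_left h6).1 h7
  have h9 : 2 * a - a = a := by ring
  rw [h9] at h8
  exact absurd h8 (not_le.2 hsmall)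

end Pool.Agent.VREV
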